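import Pool.Agent.H40.OrdProd

set_option autoImplicit false

namespace Pool.Agent.Results.MP_d97c10_lc.LocallyFinite

open Pool.Agent.H40.OrdProd

universe u

/-- The modal algebras of finite direct products of ordinals are locally finite. -/
theorem result (k : ℕ) (α : Fin k → Ordinal.{u}) : LocFin (ProdLe α) ∧ LocFin (ProdLt α) :=
  ⟨locFin_of _ (tun_le α), locFin_of _ (tun_lt α)⟩

end Pool.Agent.Results.MP_d97c10_lc.LocallyFinite
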